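import Pool.Agent.LacunaryBlocks.Proof

open Pool.Agent.LacunaryBlocks

namespace Pool.Agent.Results.MP_b4ed43_an.BlockSquareSum

/-- **Disproof of Q1 of MP_b4ed43_an, with the exact criterion.** For some strictly increasing
admissible `(r_k)` the inequality fails for every constant, and for every admissible `(r_k)` it holds
(for some constant) exactly when the block lengths `λ_{s+1} - λ_s` are bounded. -/
theorem result :
    (∃ r : ℕ → ℝ, StrictMono r ∧ Admissible r ∧ ¬ BlockBound r) ∧
    ∀ r : ℕ → ℝ, Admissible r →
      (BlockBound r ↔ ∃ M : ℕ, ∀ s : ℕ, lam r (s + 1) - lam r s ≤ M) :=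
  Pool.Agent.LacunaryBlocks.main

end Pool.Agent.Results.MP_b4ed43_an.BlockSquareSum
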